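import Pool.Agent.helper50.BS.SpecU

/-! # Project bs, module UND: correctness of `nd` -/

set_option autoImplicit false

open scoped Classical

namespace Pool.Agent.helper50.BT

open Pool.Agent.helper81.PL

theorem UND_find {l : List (Finset ℕ)} {P : Finset ℕ} (h : P ∈ l) :
    l.find? (fun x => eqb x P) = some P := by
  have h1 : (l.find? (fun x => eqb x P)).isSome = true := by
    rw [List.find?_isSome]
    exact ⟨P, h, by simp [eqb]⟩
  obtain ⟨b, hb⟩ := Option.isSome_iff_exists.1 h1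
  have h2 := List.find?_some hb
  have h3 : b = P := by simpa [eqb] using h2
  rw [hb, h3]

theorem UND (hT5 : helper81.BS.T5_stmt) (hUA1 : UA1_stmt) (hUB1 : UB1_stmt) (hUC10 : UC10_stmt) :
    UND_stmt := by
  intro N M n k E W Tl h T hBig hM hW hc hd htl
  have hN : n * n + n + 1 + 4 ^ (2 * k) + 2 ^ (6 * k + 1) + (n + 1) * (k + 1) * (3 * k + 1) + M ≤ N :=
    hBig
  have a1 := Nat.zero_le (2 ^ (6 * k + 1))
  have a2 := Nat.zero_le ((n + 1) * (k + 1) * (3 * k + 1))
  have a3 := Nat.zero_le (4 ^ (2 * k))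
  have a4 := Nat.zero_le (n * n)
  have hN1 : n * n + n + 4 ^ (2 * k) ≤ N := by linarith
  have hN2 : n * n < N := by linarith
  have hN3 : 4 ^ (2 * k) ≤ N := by linarith
  have hT := hT5 N n E W k hN1 h hW hc
  have hH : Hyp N M n k E W (helper81.BS.tightP N n E W k) Tl h T :=
    ⟨hBig, hM, hW, hT, hd, htl⟩
  intro P hP
  have h1 := hUB1 N (helper81.BS.dl n E W) (by
    intro e he
    exact ((hUA1 n E h).2.2.2.2 e ((hUA1 n E h).2.2.2.1 W he)).trans hN2) (by
    have h2 : (2 : ℕ) ^ (helper81.BS.dl n E W).card ≤ 2 ^ (2 * k) :=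
      Nat.pow_le_pow_right (by norm_num) hd
    have h3 : (2 : ℕ) ^ (2 * k) ≤ 4 ^ (2 * k) := Nat.pow_le_pow_left (by norm_num) _
    exact h2.trans (h3.trans hN3))
  have h2 : P ∈ psub N (helper81.BS.dl n E W) := (h1.2 P).2 hP
  refine ⟨(P, resT N M n k E Tl W (helper81.BS.tightP N n E W k) P), ?_,
    hUC10 N M n k E W _ Tl h T hH P hP⟩
  unfold nd
  rw [List.find?_map]
  have h3 : ((fun r : Finset ℕ × List ℕ => eqb r.1 P) ∘
      fun P' => (P', resT N M n k E Tl W (helper81.BS.tightP N n E W k) P')) =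
      fun x => eqb x P := rfl
  rw [h3, UND_find h2]
  rfl

end Pool.Agent.helper50.BT
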