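import Pool.Agent.helper73.BS.Spec2

/-!
# bs:FC, a flag with irreducible steps
-/

set_option autoImplicit false

namespace Pool.Agent.BS

open Matrix Module Pool.Agent.UG Pool.Agent.H48SL Pool.Agent.SHL

theorem FC_next (n : ℕ) (P : Subgroup (SLZ n)) (A : Submodule ℚ (VQ n))
    (hA : ∀ g ∈ P, ∀ w ∈ A, qg g *ᵥ w ∈ A) :
    ∃ B : Submodule ℚ (VQ n), (∀ g ∈ P, ∀ w ∈ B, qg g *ᵥ w ∈ B) ∧ A ≤ B ∧ (A = ⊤ ∨ A < B) ∧
      ∀ M : Submodule ℚ (VQ n), A ≤ M → M ≤ B → (∀ g ∈ P, ∀ w ∈ M, qg g *ᵥ w ∈ M) →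
        M = A ∨ M = B := by
  by_cases hT : A = ⊤
  · refine ⟨A, hA, le_refl _, Or.inl hT, ?_⟩
    intro M h1 h2 _
    exact Or.inl (le_antisymm h2 h1)
  · let S : Set (Submodule ℚ (VQ n)) := {B | A < B ∧ ∀ g ∈ P, ∀ w ∈ B, qg g *ᵥ w ∈ B}
    have hne : S.Nonempty := ⟨⊤, lt_top_iff_ne_top.mpr hT, fun g _ w _ => Submodule.mem_top⟩
    obtain ⟨B, hB, hmin⟩ := WellFounded.has_min
      (wellFounded_lt : WellFounded ((· < ·) : Submodule ℚ (VQ n) → Submodule ℚ (VQ n) → Prop)) S hne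
    refine ⟨B, hB.2, hB.1.le, Or.inr hB.1, ?_⟩
    intro M h1 h2 hM
    by_cases hMA : M = A
    · exact Or.inl hMA
    · right
      have hAM : A < M := lt_of_le_of_ne h1 (Ne.symm hMA)
      by_contra hMB
      exact hmin M ⟨hAM, hM⟩ (lt_of_le_of_ne h2 hMB)

theorem FC : FC_stmt := by
  intro n P
  let T := {A : Submodule ℚ (VQ n) // ∀ g ∈ P, ∀ w ∈ A, qg g *ᵥ w ∈ A}
  choose f hf1 hf2 hf3 hf4 using FC_next n P
  let start : T := ⟨⊥, by
    intro g _ w hw
    have : w = 0 := (Submodule.mem_bot ℚ).mp hw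
    rw [this, Matrix.mulVec_zero]
    exact Submodule.zero_mem _⟩
  let step : T → T := fun A => ⟨f A.1 A.2, hf1 A.1 A.2⟩
  let U : ℕ → T := fun i => Nat.rec start (fun _ A => step A) i
  have hU0 : (U 0).1 = ⊥ := rfl
  have hUs : ∀ i, (U (i + 1)).1 = f (U i).1 (U i).2 := fun i => rfl
  have hmono : Monotone fun i => (U i).1 := by
    refine monotone_nat_of_le_succ ?_
    intro i
    show (U i).1 ≤ (U (i + 1)).1
    rw [hUs]
    exact hf2 _ _
  have hrank : ∀ i, (U i).1 = ⊤ ∨ i ≤ finrank ℚ (U i).1 := by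
    intro i
    induction i with
    | zero => exact Or.inr (Nat.zero_le _)
    | succ i ih =>
      rcases ih with h | h
      · left
        have h2 : (U i).1 ≤ (U (i + 1)).1 := hmono (Nat.le_succ i)
        rw [h] at h2
        exact top_le_iff.mp h2
      · rcases hf3 (U i).1 (U i).2 with h3 | h3
        · left
          have h2 : (U i).1 ≤ (U (i + 1)).1 := hmono (Nat.le_succ i)
          rw [h3] at h2
          exact top_le_iff.mp h2
        · right
          have h4 : (U i).1 < (U (i + 1)).1 := by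
            rw [hUs]
            exact h3
          have h5 := Submodule.finrank_lt_finrank_of_lt h4
          omega
  refine ⟨n, fun i => (U i).1, hmono, hU0, ?_, ?_, ?_⟩
  · rcases hrank n with h | h
    · exact h
    · show (U n).1 = ⊤
      apply Submodule.eq_top_of_finrank_eq
      have h2 : finrank ℚ (U n).1 ≤ finrank ℚ (VQ n) := Submodule.finrank_le _
      have h3 : finrank ℚ (VQ n) = n := by
        show finrank ℚ (Fin n → ℚ) = n
        rw [finrank_fin_fun]
      omega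
  · intro g hg i w hw
    exact (U i).2 g hg w hw
  · intro i M h1 h2 hM
    have h2' : M ≤ f (U i).1 (U i).2 := h2
    exact hf4 (U i).1 (U i).2 M h1 h2' hM

end Pool.Agent.BS
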